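import Mathlib
import Pool.Agent.U485.SM.Stm

/-!
# Package CST: constant sieve levels
-/

set_option autoImplicit false

open Finset

namespace Pool.Agent.U660.HT

open Pool.Agent.U485.SM

lemma Pr_succ (t : ℕ) : Pr (t + 1) = if (t + 1).Prime then insert (t + 1) (Pr t) else Pr t := by
  unfold Pr
  ext p
  split_ifs with h
  · simp only [mem_filter, mem_Icc, mem_insert]
    constructor
    · rintro ⟨⟨h1, h2⟩, h3⟩
      rcases Nat.lt_or_ge p (t + 1) with h4 | h4
      · exact Or.inr ⟨⟨h1, by omega⟩, h3⟩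
      · exact Or.inl (by omega)
    · rintro (rfl | ⟨⟨h1, h2⟩, h3⟩)
      · exact ⟨⟨by omega, le_rfl⟩, h⟩
      · exact ⟨⟨h1, by omega⟩, h3⟩
  · simp only [mem_filter, mem_Icc]
    constructor
    · rintro ⟨⟨h1, h2⟩, h3⟩
      refine ⟨⟨h1, ?_⟩, h3⟩
      have : p ≠ t + 1 := fun h4 => h (h4 ▸ h3)
      omega
    · rintro ⟨⟨h1, h2⟩, h3⟩
      exact ⟨⟨h1, by omega⟩, h3⟩

lemma W_pos (t : ℕ) : 0 < W t := by
  unfold W
  apply Finset.prod_pos
  intro p hp
  have h2 : 2 ≤ p := (mem_filter.mp hp).2.two_le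
  have h3 : (2 : ℝ) ≤ p := by exact_mod_cast h2
  rw [inv_pos, sub_pos, div_lt_one (by linarith)]
  linarith

lemma W_succ_le (t : ℕ) : W (t + 1) ≤ t + 1 := by
  induction t with
  | zero =>
    unfold W
    rw [Pr_succ, if_neg (by decide)]
    have : Pr 0 = ∅ := by decide
    rw [this]
    simp
  | succ t ih =>
    have e : W (t + 1 + 1) = if (t + 1 + 1).Prime then
        (1 - 1 / ((t + 1 + 1 : ℕ) : ℝ))⁻¹ * W (t + 1) else W (t + 1) := by
      unfold W
      rw [Pr_succ]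
      split_ifs with h
      · rw [prod_insert]
        intro h1
        have := (mem_Icc.mp (mem_filter.mp h1).1).2
        omega
      · rfl
    rw [e]
    have ht : (0 : ℝ) < t + 1 := by positivity
    split_ifs with h
    · have e2 : (1 - 1 / ((t + 1 + 1 : ℕ) : ℝ))⁻¹ = (t + 1 + 1) / (t + 1) := by
        push_cast
        have h0 : ((t : ℝ) + 1 + 1) ≠ 0 := by positivity
        rw [show (1 : ℝ) - 1 / (t + 1 + 1) = (t + 1) / (t + 1 + 1) by field_simp; ring]
        rw [inv_div]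
      rw [e2]
      push_cast
      rw [div_mul_eq_mul_div, div_le_iff₀ ht]
      have h3 : (0 : ℝ) ≤ t + 1 + 1 := by positivity
      nlinarith [mul_le_mul_of_nonneg_left ih h3]
    · push_cast
      linarith

lemma W_le (t : ℕ) : W t ≤ t + 1 := by
  rcases t with _ | t
  · have : Pr 0 = ∅ := by decide
    unfold W
    rw [this]
    simp
  · have := W_succ_le t
    push_cast
    linarith

lemma dvd_iff (f : ℤ × ℤ) (p : ℕ) (n : ℤ) : (p : ℤ) ∣ val f (n % p) ↔ (p : ℤ) ∣ val f n := by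
  have h : val f n = val f (n % p) + p * (f.1 * (n / p)) := by
    unfold Pool.Agent.U485.SM.val
    have := Int.emod_add_mul_ediv n p
    linear_combination (-f.1) * this
  rw [h]
  exact (dvd_add_left (dvd_mul_right _ _)).symm

open Classical in
lemma Om_card (F : Finset (ℤ × ℤ)) (t : ℤ × ℤ → ℕ) (hF : ∀ f ∈ F, IsCoprime f.1 f.2) (p : ℕ)
    (hp : p.Prime) : (Om F t p).card ≤ F.card := by
  have h1 : Om F t p ⊆ F.biUnion (fun f => (range p).filter (fun r : ℕ => (p : ℤ) ∣ val f r)) := by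
    intro r hr
    obtain ⟨h2, f, hf, -, h3⟩ := mem_filter.mp hr
    exact mem_biUnion.mpr ⟨f, hf, mem_filter.mpr ⟨h2, h3⟩⟩
  refine (card_le_card h1).trans ?_
  refine (card_biUnion_le_card_mul F _ 1 ?_).trans (by rw [mul_one])
  intro f hf
  rw [card_le_one]
  intro r hr s hs
  obtain ⟨hr1, hr2⟩ := mem_filter.mp hr
  obtain ⟨hs1, hs2⟩ := mem_filter.mp hs
  rw [mem_range] at hr1 hs1
  have h4 : (p : ℤ) ∣ f.1 * ((r : ℤ) - s) := by
    have := dvd_sub hr2 hs2
    unfold Pool.Agent.U485.SM.val at this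
    rwa [show f.1 * (r : ℤ) + f.2 - (f.1 * (s : ℤ) + f.2) = f.1 * ((r : ℤ) - s) by ring] at this
  have hpZ : Prime (p : ℤ) := Nat.prime_iff_prime_int.mp hp
  rcases hpZ.dvd_or_dvd h4 with h5 | h5
  · exfalso
    have h6 : (p : ℤ) ∣ f.2 := by
      unfold Pool.Agent.U485.SM.val at hr2
      exact (dvd_add_right (h5.mul_right _)).mp hr2
    exact hpZ.not_isUnit ((hF f hf).isUnit_of_dvd' h5 h6)
  · have h7 := Int.eq_zero_of_abs_lt_dvd h5 (by rw [abs_lt]; constructor <;> omega)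
    omega

open Classical in
/-- **Package CST.** -/
theorem t_CST (h : S_FLK) : S_CST := by
  intro k b₀
  obtain ⟨K, hK1, H⟩ := h k
  refine ⟨1, k + K * (K + b₀), one_pos, fun F t J1 J2 hk hF hJ => ?_⟩
  obtain ⟨z, hz⟩ : ∃ z, z = F.sup t := ⟨_, rfl⟩
  have htz : ∀ f ∈ F, t f ≤ z := fun f hf => hz ▸ le_sup (f := t) hf
  have hJr : (0 : ℝ) ≤ (J2 : ℝ) - J1 := by
    have : (J1 : ℝ) ≤ J2 := by exact_mod_cast hJ
    linarith
  obtain ⟨P, hP⟩ : ∃ P, P = ∏ f ∈ F, W (t f) := ⟨_, rfl⟩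
  have hP0 : 0 ≤ P := by
    rw [hP]
    exact prod_nonneg fun f _ => (W_pos _).le
  obtain ⟨V, hV⟩ : ∃ V, V = ∏ p ∈ Pr z, (1 - ((Om F t p).card : ℝ) / p) := ⟨_, rfl⟩
  have hV0 : 0 ≤ V := by
    rw [hV]
    refine prod_nonneg fun p hp => ?_
    have hp2 : 2 ≤ p := (mem_filter.mp hp).2.two_le
    have h1 : (Om F t p).card ≤ p := by
      refine (card_le_card (filter_subset _ _)).trans ?_
      rw [card_range]
    have h2 : ((Om F t p).card : ℝ) ≤ p := by exact_mod_cast h1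
    have h3 : (0 : ℝ) < p := by exact_mod_cast (by omega : 0 < p)
    rw [sub_nonneg, div_le_one h3]
    exact h2
  have hSg : Sg F t = V * P := by
    unfold Sg
    rw [hV, hP, hz]
  rw [hSg, ← hP, ← hz]
  have hzr : (0 : ℝ) ≤ z := Nat.cast_nonneg z
  rcases Nat.lt_or_ge z 2 with hz2 | hz2
  · have e1 : (Finset.Ioc J1 J2).filter (fun n : ℤ => ∀ f ∈ F, ∀ p : ℕ, p.Prime → p ≤ t f →
      ¬ (p : ℤ) ∣ val f n) = Finset.Ioc J1 J2 := by
      refine filter_true_of_mem fun n _ f hf p hp hpt => ?_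
      have := hp.two_le
      have := htz f hf
      omega
    have e2 : V = 1 := by
      rw [hV]
      refine prod_eq_one fun p hp => ?_
      obtain ⟨h1, h2⟩ := mem_filter.mp hp
      have := h2.two_le
      have := (mem_Icc.mp h1).2
      omega
    rw [e1, e2, Int.card_Ioc]
    have e3 : (((J2 - J1).toNat : ℕ) : ℝ) = (J2 : ℝ) - J1 := by
      have h4 : (((J2 - J1).toNat : ℕ) : ℤ) = J2 - J1 := Int.toNat_of_nonneg (by omega)
      exact_mod_cast h4
    rw [e3, show P * ((J2 : ℝ) - J1) - ((J2 : ℝ) - J1) * (1 * P) = 0 by ring, abs_zero]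
    positivity
  · have h1 := H (K + b₀) z (Om F t) J1 J2 (by omega) hz2 (fun p hp _ =>
      ⟨filter_subset _ _, (Om_card F t hF p hp).trans hk⟩) hJ
    rw [← hV] at h1
    have e1 : (Finset.Ioc J1 J2).filter (fun n : ℤ => ∀ p : ℕ, p.Prime → p ≤ z →
        (n % p).toNat ∉ Om F t p) = (Finset.Ioc J1 J2).filter (fun n : ℤ => ∀ f ∈ F, ∀ p : ℕ,
        p.Prime → p ≤ t f → ¬ (p : ℤ) ∣ val f n) := by
      refine filter_congr fun n _ => ?_
      have hr : ∀ p : ℕ, p.Prime → (((n % p).toNat : ℕ) : ℤ) = n % p := fun p hp =>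
        Int.toNat_of_nonneg (Int.emod_nonneg _ (by exact_mod_cast hp.ne_zero))
      constructor
      · intro h2 f hf p hp hpt hd
        refine h2 p hp (hpt.trans (htz f hf)) (mem_filter.mpr ⟨?_, f, hf, hpt, ?_⟩)
        · rw [mem_range]
          have h3 : n % (p : ℤ) < p := Int.emod_lt_of_pos _ (by exact_mod_cast hp.pos)
          have h4 := hr p hp
          omega
        · rw [hr p hp]
          exact (dvd_iff f p n).mpr hd
      · intro h2 p hp hpz hm
        obtain ⟨-, f, hf, hpt, hd⟩ := mem_filter.mp hm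
        rw [hr p hp] at hd
        exact h2 f hf p hp hpt ((dvd_iff f p n).mp hd)
    rw [e1] at h1
    obtain ⟨c, hc⟩ : ∃ c : ℝ, c = (((Finset.Ioc J1 J2).filter (fun n : ℤ => ∀ f ∈ F, ∀ p : ℕ,
        p.Prime → p ≤ t f → ¬ (p : ℤ) ∣ val f n)).card : ℝ) := ⟨_, rfl⟩
    rw [← hc] at h1 ⊢
    have h2 : |P * c - ((J2 : ℝ) - J1) * (V * P)| = P * |c - ((J2 : ℝ) - J1) * V| := by
      rw [show P * c - ((J2 : ℝ) - J1) * (V * P) = P * (c - ((J2 : ℝ) - J1) * V) by ring, abs_mul,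
        abs_of_nonneg hP0]
    rw [h2]
    have hPle : P ≤ ((z : ℝ) + 1) ^ k := by
      rw [hP]
      calc ∏ f ∈ F, W (t f) ≤ ∏ f ∈ F, ((z : ℝ) + 1) := by
            refine prod_le_prod (fun f _ => (W_pos _).le) fun f hf => ?_
            have h3 : (t f : ℝ) ≤ z := by exact_mod_cast htz f hf
            linarith [W_le (t f)]
        _ = ((z : ℝ) + 1) ^ F.card := by rw [prod_const]
        _ ≤ ((z : ℝ) + 1) ^ k := pow_le_pow_right₀ (by linarith) hk
    have h3 : P * |c - ((J2 : ℝ) - J1) * V| ≤ P * ((1 / 2 : ℝ) ^ (K + b₀) *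
        (((J2 : ℝ) - J1) * V) + (z : ℝ) ^ (K * (K + b₀))) := mul_le_mul_of_nonneg_left h1 hP0
    have h4 : P * ((1 / 2 : ℝ) ^ (K + b₀) * (((J2 : ℝ) - J1) * V)) ≤
        (1 / 2 : ℝ) ^ b₀ * (((J2 : ℝ) - J1) * (V * P)) := by
      have h5 : (1 / 2 : ℝ) ^ (K + b₀) ≤ (1 / 2 : ℝ) ^ b₀ :=
        pow_le_pow_of_le_one (by norm_num) (by norm_num) (by omega)
      calc P * ((1 / 2 : ℝ) ^ (K + b₀) * (((J2 : ℝ) - J1) * V))
          = (1 / 2 : ℝ) ^ (K + b₀) * (((J2 : ℝ) - J1) * (V * P)) := by ring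
        _ ≤ (1 / 2 : ℝ) ^ b₀ * (((J2 : ℝ) - J1) * (V * P)) :=
            mul_le_mul_of_nonneg_right h5 (by positivity)
    have h6 : P * (z : ℝ) ^ (K * (K + b₀)) ≤ 1 * ((z : ℝ) + 2) ^ (k + K * (K + b₀)) := by
      rw [one_mul, pow_add]
      refine mul_le_mul (hPle.trans ?_) ?_ (by positivity) (by positivity)
      · exact pow_le_pow_left₀ (by linarith) (by linarith) _
      · exact pow_le_pow_left₀ hzr (by linarith) _
    calc P * |c - ((J2 : ℝ) - J1) * V| ≤ _ := h3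
      _ = P * ((1 / 2 : ℝ) ^ (K + b₀) * (((J2 : ℝ) - J1) * V)) +
          P * (z : ℝ) ^ (K * (K + b₀)) := by ring
      _ ≤ _ := add_le_add h4 h6

end Pool.Agent.U660.HT
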